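import Pool.Agent.Lib.MP_4fbe7c_an.ND.Base

/-! Project ND, module MXP: a maximum point of a function with the Neumann condition. -/

set_option autoImplicit false

open Set MeasureTheory Filter Topology

namespace Pool.Agent.Lib.MP_4fbe7c_an.ND.H78

open Pool.Agent.Lib.MP_4fbe7c_an.ND

variable {p : ℕ} {Ω : Set (Eu p)} {q : Eu p → ℝ} {f : Eu p → ℝ} {f' : Eu p → Eu p}
  {H : Eu p → Eu p →L[ℝ] Eu p} {x e : Eu p}

/-- First order, inward directions. -/
lemma first_order (hΩ : Dom Ω q) (h : C1 Ω f f') (hx : x ∈ closure Ω)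
    (hm : ∀ y ∈ closure Ω, f y ≤ f x) (he : ∀ᶠ s in 𝓝[>] (0 : ℝ), x + s • e ∈ Ω) :
    inner ℝ (f' x) e ≤ 0 := by
  have h1 := h.hasDerivWithinAt_inward hΩ hx he
  rw [hasDerivWithinAt_iff_tendsto_slope] at h1
  have h2 : 𝓝[>] (0 : ℝ) ≤ 𝓝[Ici 0 \ {0}] 0 := by
    apply nhdsWithin_mono
    intro s hs
    simp only [mem_Ioi] at hs
    exact ⟨mem_Ici.2 hs.le, fun h => hs.ne' h⟩
  refine le_of_tendsto (h1.mono_left h2) ?_
  filter_upwards [he, self_mem_nhdsWithin] with s hs hs0
  simp only [mem_Ioi] at hs0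
  rw [slope_def_field]
  simp only [zero_smul, add_zero, sub_zero]
  exact div_nonpos_of_nonpos_of_nonneg (sub_nonpos.2 (hm _ (subset_closure hs))) hs0.le

/-- Second order, inward directions. -/
lemma second_order (h : C2 Ω f f' H) (hx : x ∈ closure Ω)
    (hm : ∀ y ∈ closure Ω, f y ≤ f x) (h0 : f' x = 0)
    (he : ∀ᶠ s in 𝓝[>] (0 : ℝ), x + s • e ∈ Ω) :
    inner ℝ (H x e) e ≤ 0 := by
  by_contra hc
  push Not at hc
  obtain ⟨s₀, hs₀, hs⟩ := mem_nhdsGT_iff_exists_Ioo_subset.mp he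
  have hs0 : 0 < s₀ := hs₀
  have hline : Continuous (fun s : ℝ => x + s • e) := by fun_prop
  have hmem : ∀ s ∈ Ico (0 : ℝ) s₀, x + s • e ∈ closure Ω := by
    intro s hs1
    rcases eq_or_lt_of_le hs1.1 with h1 | h1
    · rw [← h1]
      simpa using hx
    · exact subset_closure (hs ⟨h1, hs1.2⟩)
  have hg : ContinuousOn (fun s : ℝ => inner ℝ (f' (x + s • e)) e) (Ico 0 s₀) :=
    (h.toC1.c1.comp hline.continuousOn hmem).inner continuousOn_const
  have hH : ContinuousOn (fun s : ℝ => inner ℝ (H (x + s • e) e) e) (Ico 0 s₀) :=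
    ((h.c2.comp hline.continuousOn hmem).clm_apply continuousOn_const).inner continuousOn_const
  have hw : ContinuousWithinAt (fun s : ℝ => inner ℝ (H (x + s • e) e) e) (Ici 0) 0 :=
    (hH 0 ⟨le_refl 0, hs0⟩).mono_of_mem_nhdsWithin (Ico_mem_nhdsGE hs0)
  have hd : ∀ s ∈ Ioo (0 : ℝ) s₀, HasDerivAt (fun s : ℝ => inner ℝ (f' (x + s • e)) e)
      (inner ℝ (H (x + s • e) e) e) s := by
    intro s hs1
    have h1 := h.d2 _ (hs hs1)
    have h2 : HasDerivAt (fun s : ℝ => x + s • e) e s := by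
      have := ((hasDerivAt_id s).smul_const e).const_add x
      simpa using this
    have h3 := h1.comp_hasDerivAt s h2
    have h4 := h3.inner ℝ (hasDerivAt_const s e)
    simpa using h4
  have h1 := hasDerivWithinAt_ray hs0 hg hw hd
  rw [hasDerivWithinAt_iff_tendsto_slope] at h1
  have h2 : 𝓝[>] (0 : ℝ) ≤ 𝓝[Ici 0 \ {0}] 0 := by
    apply nhdsWithin_mono
    intro s hs
    simp only [mem_Ioi] at hs
    exact ⟨mem_Ici.2 hs.le, fun h => hs.ne' h⟩
  have h3 := (h1.mono_left h2).eventually_const_lt (u := 0) (by simpa using hc)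
  obtain ⟨δ, hδ, hδ2⟩ := mem_nhdsGT_iff_exists_Ioo_subset.mp (h3.and (Ioo_mem_nhdsGT hs0))
  have hδ0 : 0 < δ := hδ
  have hpos : ∀ s ∈ Ioo (0 : ℝ) δ, 0 < inner ℝ (f' (x + s • e)) e ∧ s < s₀ := by
    intro s hs1
    obtain ⟨h4, h5⟩ := hδ2 hs1
    rw [slope_def_field] at h4
    simp only [zero_smul, add_zero, sub_zero, h0, inner_zero_left] at h4
    refine ⟨?_, h5.2⟩
    have := mul_pos h4 hs1.1
    rwa [div_mul_cancel₀ _ hs1.1.ne'] at this
  have hmono : StrictMonoOn (fun s : ℝ => f (x + s • e)) (Icc 0 (δ / 2)) := by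
    apply strictMonoOn_of_deriv_pos (convex_Icc _ _)
    · refine h.toC1.c0.comp hline.continuousOn ?_
      intro s hs1
      refine hmem s ⟨hs1.1, ?_⟩
      rcases eq_or_lt_of_le hs1.1 with h4 | h4
      · rw [← h4]; exact hs0
      · exact (hpos s ⟨h4, by linarith [hs1.2]⟩).2
    · intro s hs1
      rw [interior_Icc] at hs1
      have h4 := hpos s ⟨hs1.1, by linarith [hs1.2]⟩
      have h5 := h.toC1.hasDerivAt_line (hs ⟨hs1.1, h4.2⟩ : x + s • e ∈ Ω)
      rw [h5.deriv]
      exact h4.1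
  have h6 := hmono (⟨le_refl 0, by linarith⟩ : (0 : ℝ) ∈ Icc 0 (δ / 2))
    (⟨by linarith, le_refl _⟩ : δ / 2 ∈ Icc 0 (δ / 2)) (by linarith)
  simp only [zero_smul, add_zero] at h6
  have h7 : x + (δ / 2) • e ∈ closure Ω := by
    refine hmem _ ⟨by linarith, ?_⟩
    exact (hpos (δ / 2) ⟨by linarith, by linarith⟩).2
  exact absurd (hm _ h7) (not_le.2 h6)

theorem mxp : MxpStatement := by
  intro p Ω q f f' H x hΩ h hN hx hm
  -- inward directions
  have hin : ∀ e : Eu p, x ∈ Ω → ∀ᶠ s in 𝓝[>] (0 : ℝ), x + s • e ∈ Ω := fun e hxΩ =>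
    (hΩ.eventually_mem_of_mem hxΩ e).filter_mono nhdsWithin_le_nhds
  have hbd : x ∈ frontier Ω → ∀ e : Eu p, inner ℝ (gradient q x) e < 0 →
      ∀ᶠ s in 𝓝[>] (0 : ℝ), x + s • e ∈ Ω := fun hxF e he =>
    hΩ.eventually_mem (hΩ.mem_frontier_iff.1 hxF) he
  have hn : x ∈ frontier Ω → 0 < ‖gradient q x‖ ^ 2 := fun hxF => by
    have := norm_pos_iff.2 (hΩ.grad x (hΩ.mem_frontier_iff.1 hxF))
    positivity
  have hf0 : f' x = 0 := by
    have key : inner ℝ (f' x) (f' x) ≤ 0 := by
      rcases hΩ.mem_or_frontier hx with h1 | h1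
      · exact first_order hΩ h.toC1 hx hm (hin _ h1)
      · have h2 := hN x h1
        have h3 : inner ℝ (gradient q x) (f' x - gradient q x) < 0 := by
          rw [inner_sub_right, real_inner_comm, h2, real_inner_self_eq_norm_sq]
          linarith [hn h1]
        have h4 := first_order hΩ h.toC1 hx hm (hbd h1 _ h3)
        rw [inner_sub_right, h2, sub_zero] at h4
        exact h4
    rw [real_inner_self_eq_norm_sq] at key
    have h5 : ‖f' x‖ ^ 2 = 0 := le_antisymm key (by positivity)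
    exact norm_eq_zero.1 ((pow_eq_zero_iff two_ne_zero).1 h5)
  refine ⟨hf0, ?_⟩
  have hall : ∀ e : Eu p, inner ℝ (H x e) e ≤ 0 := by
    intro e
    rcases hΩ.mem_or_frontier hx with h1 | h1
    · exact second_order h hx hm hf0 (hin e h1)
    · rcases lt_trichotomy (inner ℝ (gradient q x) e) 0 with h2 | h2 | h2
      · exact second_order h hx hm hf0 (hbd h1 e h2)
      · have hlim : Tendsto (fun κ : ℝ => inner ℝ (H x (e - κ • gradient q x))
            (e - κ • gradient q x)) (𝓝[>] 0) (𝓝 (inner ℝ (H x e) e)) := by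
          have hc : Continuous (fun κ : ℝ => (inner ℝ (H x (e - κ • gradient q x))
            (e - κ • gradient q x) : ℝ)) := by fun_prop
          have h3 := hc.tendsto 0
          simp only [zero_smul, sub_zero] at h3
          exact h3.mono_left nhdsWithin_le_nhds
        refine le_of_tendsto hlim ?_
        filter_upwards [self_mem_nhdsWithin] with κ hκ
        simp only [mem_Ioi] at hκ
        apply second_order h hx hm hf0
        apply hbd h1
        rw [inner_sub_right, h2, real_inner_smul_right, real_inner_self_eq_norm_sq, zero_sub]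
        have := mul_pos hκ (hn h1)
        linarith
      · have h3 := second_order (e := -e) h hx hm hf0 (hbd h1 (-e) (by
          rw [inner_neg_right]; linarith))
        rw [map_neg, inner_neg_neg] at h3
        exact h3
  unfold tr
  apply Finset.sum_nonpos
  intro i _
  have h4 := hall (EuclideanSpace.single i 1)
  rw [EuclideanSpace.inner_single_right] at h4
  simpa using h4

end Pool.Agent.Lib.MP_4fbe7c_an.ND.H78
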